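import Pool.Agent.NDR.StmtsM

/-!
Squad NDL, row FLT: the vector `1_I` is a combination of the `a|_I`.
-/

set_option autoImplicit false

namespace Pool.Agent.NDR.H41

open Finset

theorem flt : FltStmt := by
  classical
  intro σ _ A I h
  set v : (σ →₀ ℕ) → (σ → ℚ) := fun a i => if i ∈ I then (a i : ℚ) else 0 with hv
  set x : σ → ℚ := fun i => if i ∈ I then 1 else 0 with hx
  have hmem : x ∈ Submodule.span ℚ (v '' (A : Set (σ →₀ ℕ))) := by
    by_contra hcon
    obtain ⟨f, hf, hle⟩ := Submodule.exists_le_ker_of_notMem hcon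
    have hf' : ∀ g : σ → ℚ, f g = ∑ i, g i * f (Pi.single i 1) := by
      intro g
      conv_lhs => rw [pi_eq_sum_univ' g]
      rw [map_sum]
      refine Finset.sum_congr rfl fun i _ => ?_
      rw [map_smul, smul_eq_mul]
    set w : σ → ℚ := fun i => if i ∈ I then f (Pi.single i 1) else 0 with hw
    have h1 : Off I w := fun i hi => by simp only [hw, if_neg hi]
    have h2 : ∀ a ∈ A, dq w a = 0 := by
      intro a ha
      have h3 : f (v a) = 0 :=
        hle (Submodule.subset_span ⟨a, ha, rfl⟩)
      rw [hf'] at h3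
      unfold dq
      rw [← h3]
      refine Finset.sum_congr rfl fun i _ => ?_
      simp only [hw, hv]
      split_ifs
      · ring
      · ring
    have h4 := h w h1 h2
    apply hf
    rw [hf', ← h4]
    refine Finset.sum_congr rfl fun i _ => ?_
    simp only [hw, hx]
    split_ifs
    · ring
    · ring
  rw [Submodule.mem_span_image_finset_iff_exists_fun] at hmem
  obtain ⟨c, hc⟩ := hmem
  refine ⟨fun a => if ha : a ∈ A then c ⟨a, ha⟩ else 0, fun i hi => ?_⟩
  have h5 := congrFun hc i
  rw [Finset.sum_apply] at h5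
  simp only [hx, if_pos hi] at h5
  rw [← h5]
  unfold cmb
  rw [← Finset.sum_coe_sort A]
  refine Finset.sum_congr rfl fun a _ => ?_
  simp only [hv, if_pos hi, Pi.smul_apply, smul_eq_mul]
  rw [dif_pos a.2]

end Pool.Agent.NDR.H41
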